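import Pool.Agent.V11277.MF.Dim

/-!
# Exponents of Weyl sums which are attained on sets of positive dimension

The point `(0, x, 0, …, 0)` has the exponent `1 - 1 / τ` if `x` belongs to a Cantor set of numbers
with the exact irrationality exponent `τ > 3`, all of whose good approximations have the
denominators `3 ^ n`.
-/

set_option autoImplicit false

namespace Pool.Agent.Results.MP_3c4aa6_nt.PositiveDimension

open Filter Asymptotics MeasureTheory
open Pool.Agent.V11277.MF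
open Pool.Agent.H807R2.Dav (ee)

/-- The Weyl sum `S_d(x; N) = ∑_{n=1}^N exp(2πi(x_1 n + x_2 n² + ⋯ + x_d n^d))`; the coordinate
`x_{j+1}` is `x j`, `j = 0, …, d - 1`. -/
noncomputable def weylSum {d : ℕ} (x : EuclideanSpace ℝ (Fin d)) (N : ℕ) : ℂ :=
  ∑ n ∈ Finset.Icc 1 N, Complex.exp (2 * Real.pi * Complex.I *
    ((∑ j : Fin d, x j * (n : ℝ) ^ ((j : ℕ) + 1) : ℝ) : ℂ))

/-- The growth exponent `σ(x)`: the infimum of the `s > 0` with `|S_d(x; N)| = O(N^s)` as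
`N → ∞`. -/
noncomputable def growthExponent {d : ℕ} (x : EuclideanSpace ℝ (Fin d)) : ℝ :=
  sInf {s : ℝ | 0 < s ∧ (fun N : ℕ => weylSum x N) =O[atTop] fun N : ℕ => (N : ℝ) ^ s}

/-- The set `Ω_α` of the points `x` of `[0,1)^d` with `σ(x) = α`. -/
def Omega (d : ℕ) (α : ℝ) : Set (EuclideanSpace ℝ (Fin d)) :=
  {x | (∀ j, x j ∈ Set.Ico (0 : ℝ) 1) ∧ growthExponent x = α}

theorem weylSum_single {d : ℕ} (hd : 2 ≤ d) (x : ℝ) (N : ℕ) :
    weylSum (EuclideanSpace.single (⟨1, hd⟩ : Fin d) x) N = W x N := by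
  have h1 : ∀ n : ℕ, (∑ j : Fin d, (EuclideanSpace.single (⟨1, hd⟩ : Fin d) x :
      EuclideanSpace ℝ (Fin d)) j * (n : ℝ) ^ ((j : ℕ) + 1)) = x * (n : ℝ) ^ 2 := by
    intro n
    rw [Finset.sum_eq_single (⟨1, hd⟩ : Fin d)]
    · simp
    · intro j _ hj
      simp [hj]
    · intro h
      exact absurd (Finset.mem_univ _) h
  have h2 : Finset.Icc 1 N = Finset.Ico (0 + 1) (N + 1) := by
    ext n
    simp only [Finset.mem_Icc, Finset.mem_Ico]
    omega
  unfold weylSum W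
  rw [h2, ← Finset.sum_Ico_add' _ 0 N 1, Finset.range_eq_Ico]
  refine Finset.sum_congr rfl fun n _ => ?_
  rw [h1]
  unfold ee
  push_cast
  rfl

theorem exponent {d : ℕ} (hd : 2 ≤ d) {τ : ℝ} (hτ : 3 < τ) (b : ℕ → Fin 2) :
    growthExponent (EuclideanSpace.single (⟨1, hd⟩ : Fin d) (xx τ b)) = 1 - 1 / τ := by
  have hα0 : 0 < 1 - 1 / τ := by
    have : 1 / τ ≤ 1 / 3 := one_div_le_one_div_of_le (by norm_num) hτ.le
    linarith
  unfold growthExponent
  simp only [weylSum_single hd]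
  apply le_antisymm
  · apply le_of_forall_gt_imp_ge_of_dense
    intro s hs
    apply csInf_le ⟨0, fun t ht => ht.1.le⟩
    exact ⟨hα0.trans hs, upper (by linarith) (by positivity) (xx_bad hτ.le b) hs⟩
  · apply le_csInf
    · exact ⟨1, one_pos, upper (by linarith) (by positivity) (xx_bad hτ.le b) (by
        have : 0 < 1 / τ := by positivity
        linarith)⟩
    · rintro s ⟨_, hs⟩
      by_contra hlt
      exact not_isBigO hτ (xx_good hτ.le b) (not_le.1 hlt) hs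

theorem xx_mem {τ : ℝ} (hτ : 3 ≤ τ) (b : ℕ → Fin 2) : xx τ b ∈ Set.Ico (0 : ℝ) 1 := by
  refine ⟨Real.ofDigits_nonneg _, ?_⟩
  obtain ⟨h1, _⟩ := xx_approx hτ b 0
  have h2 : nn τ 0 = 1 := rfl
  have h3 : 3 ≤ uu τ 0 := by
    have := three_mul_le hτ 0
    rw [h2] at this
    exact this
  have h4 : DD τ b 0 = 2 := DD_last hτ b 0
  have h5 : num (DD τ b) 1 = 2 := by
    rw [num, num, h4]
    rfl
  rw [h2, h5] at h1
  have h6 : ((3 : ℝ) ^ uu τ 0)⁻¹ ≤ ((3 : ℝ) ^ 3)⁻¹ :=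
    inv_anti₀ (by positivity) (pow_le_pow_right₀ (by norm_num) h3)
  norm_num at h1 h6
  linarith

/-- For every `d ≥ 2` the exponents `α` in `(2/3, 1)` are attained on sets of positive Hausdorff
dimension. -/
theorem pos_dim {d : ℕ} (hd : 2 ≤ d) {α : ℝ} (hα : α ∈ Set.Ioo (2 / 3 : ℝ) 1) :
    0 < dimH (Omega d α) := by
  obtain ⟨τ, hτ⟩ : ∃ τ : ℝ, τ = 1 / (1 - α) := ⟨_, rfl⟩
  have h1 : 0 < 1 - α := by linarith [hα.2]
  have hτ3 : 3 < τ := by
    rw [hτ, lt_div_iff₀ h1]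
    linarith [hα.1]
  have hατ : 1 - 1 / τ = α := by
    rw [hτ, one_div_one_div]
    ring
  have h2 : Isometry (fun t : ℝ => (EuclideanSpace.single (⟨1, hd⟩ : Fin d) t :
      EuclideanSpace ℝ (Fin d))) := by
    apply Isometry.of_dist_eq
    intro s t
    exact PiLp.dist_single_same 2 (fun _ : Fin d => ℝ) _ _ _
  have h3 := dimH_range_xx hτ3.le
  rw [← h2.dimH_image] at h3
  refine h3.trans_le (dimH_mono ?_)
  rintro _ ⟨_, ⟨b, rfl⟩, rfl⟩
  refine ⟨fun j => ?_, ?_⟩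
  · show (EuclideanSpace.single (⟨1, hd⟩ : Fin d) (xx τ b) : EuclideanSpace ℝ (Fin d)) j ∈ _
    rw [PiLp.single_apply]
    split_ifs
    · exact xx_mem hτ3.le b
    · exact ⟨le_rfl, one_pos⟩
  · rw [← hατ]
    exact exponent hd hτ3 b

/-- For every `d ≥ 2` there is a set `A ⊆ [0,1]` of positive Lebesgue measure such that the sets
`Ω_α`, `α ∈ A`, have positive Hausdorff dimension; the interval `(2/3, 1)` is such a set. -/
theorem result (d : ℕ) (hd : 2 ≤ d) :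
    (∀ α ∈ Set.Ioo (2 / 3 : ℝ) 1, 0 < dimH (Omega d α)) ∧
    ∃ A : Set ℝ, A ⊆ Set.Icc 0 1 ∧ MeasurableSet A ∧ 0 < volume A ∧
      ∀ α ∈ A, 0 < dimH (Omega d α) := by
  refine ⟨fun α hα => pos_dim hd hα, Set.Ioo (2 / 3) 1, ?_, measurableSet_Ioo, ?_,
    fun α hα => pos_dim hd hα⟩
  · intro α hα
    exact ⟨by linarith [hα.1], hα.2.le⟩
  · rw [Real.volume_Ioo]
    norm_num

end Pool.Agent.Results.MP_3c4aa6_nt.PositiveDimension
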